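import Pool.Agent.H343.QF.StS

set_option autoImplicit false
set_option linter.unusedSectionVars false

/-! # MP_9a852a_al, S4: iteration -/

namespace Pool.Agent.H597.QF

open Pool.Agent.TH68 Pool.Agent.Helper97.Hyp Pool.Agent.H343.AN Pool.Agent.H343.QF

section hom

variable {G H : Type} [Group G] [Group H] (f : G →* H)

lemma map_blk (c p : G) (n : ℕ) : f (blk c p n) = blk (f c) (f p) n := by
  induction n with
  | zero => exact map_one f
  | succ n ih =>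
    change f (blk c p n * (p ^ (n + 1) * c)) = blk (f c) (f p) n * (f p ^ (n + 1) * f c)
    rw [map_mul, map_mul, map_pow, ih]

lemma map_Wd (B : ℕ) (a b : G) (k : ℕ) : f (Wd B a b k) = Wd B (f a) (f b) k := by
  unfold Wd
  rw [map_blk, map_pow]

lemma map_Sd (B : ℕ) (b x z p : G) : f (Sd B b x z p) = Sd B (f b) (f x) (f z) (f p) := by
  unfold Sd
  simp only [map_mul, map_pow, map_blk]

lemma map_ltr (a b : G) (k : ℕ) : f (ltr a b k) = ltr (f a) (f b) k := by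
  unfold ltr
  split_ifs
  · rfl
  · rw [map_inv]
  · rfl
  · rw [map_inv]

lemma map_rel (B : ℕ) (ee : ℕ → ℕ) (a b : G) (m : ℕ) :
    f (rel B ee a b m) = rel B ee (f a) (f b) m := by
  unfold rel
  split_ifs
  · rw [map_Sd, map_pow, map_pow, map_pow]
  · rw [map_mul, map_inv, map_mul, map_Wd, map_Wd, map_ltr]

/-- transport of `Good` -/
lemma good_tr {W : WNorm G} {W' : WNorm H} (hs : Function.Surjective f)
    (hl : ∀ g, W'.ℓ (f g) = W.ℓ g) {a b : G} {δ D : ℝ} (h : Good W a b δ D) :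
    Good W' (f a) (f b) δ D := by
  have hinj : Function.Injective f := by
    rw [injective_iff_map_eq_one]
    intro g hg
    refine W.eq_one g ?_
    rw [← hl, hg, W'.one']
  have hd : ∀ x y : G, dist (pt W' (f x)) (pt W' (f y)) = dist (pt W x) (pt W y) := by
    intro x y
    rw [dist_def, dist_def, out_pt, out_pt, out_pt, out_pt, ← map_inv, ← map_mul, hl]
  have hlift : ∀ x : Pt W', ∃ x' : G, x = pt W' (f x') := by
    intro x
    obtain ⟨x', hx'⟩ := hs x.out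
    exact ⟨x', by rw [hx', pt_out]⟩
  refine ⟨?_, h.one, h.le, ?_, ?_, ?_, ?_, ?_, ?_⟩
  · intro x y z w
    obtain ⟨x, rfl⟩ := hlift x
    obtain ⟨y, rfl⟩ := hlift y
    obtain ⟨z, rfl⟩ := hlift z
    obtain ⟨w, rfl⟩ := hlift w
    rw [hd, hd, hd, hd, hd, hd]
    exact h.hyp _ _ _ _
  · intro g hg
    obtain ⟨g, rfl⟩ := hs g
    rw [hl] at hg
    rcases h.gen g hg with rfl | rfl | rfl | rfl
    · exact Or.inl rfl
    · exact Or.inr (Or.inl (map_inv f a))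
    · exact Or.inr (Or.inr (Or.inl rfl))
    · exact Or.inr (Or.inr (Or.inr (map_inv f b)))
  · intro k
    rw [← map_zpow, hl]
    exact h.pow k
  · rw [hl]
    exact h.lb
  · intro g n hn hg
    obtain ⟨g, rfl⟩ := hs g
    rw [← map_pow] at hg
    have h1 : g ^ n = 1 := hinj (by rw [hg, map_one])
    rw [h.tf g n hn h1, map_one]
  · intro u hu p hp q hq
    obtain ⟨u, rfl⟩ := hs u
    have hu' : u ∉ Subgroup.zpowers a := by
      intro hh
      refine hu ?_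
      obtain ⟨k, rfl⟩ := hh
      exact ⟨k, (map_zpow f a k).symm⟩
    obtain ⟨k, rfl⟩ := hp
    obtain ⟨l, rfl⟩ := hq
    have hmal := h.mal u hu' (pt W (u * a ^ k)) ⟨k, rfl⟩ (pt W (u * a ^ l)) ⟨l, rfl⟩
    refine le_trans ?_ hmal
    refine pd_le (S := Ln W' (f a) 1) ⟨pt W' (1 * f a ^ (0 : ℤ)), 0, rfl⟩ ?_
    rintro _ ⟨s, rfl⟩ _ ⟨t, rfl⟩
    have e1 : ∀ z : ℤ, f u * f a ^ z = f (u * a ^ z) := fun z => by rw [map_mul, map_zpow]
    have e2 : ∀ z : ℤ, 1 * f a ^ z = f (1 * a ^ z) := fun z => by rw [map_mul, map_zpow, map_one]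
    rw [e1, e1, e2, e2, hd, hd, hd, hd]
    exact le_pd (S := Ln W a 1) ⟨s, rfl⟩ ⟨t, rfl⟩
  · intro i j k l hi hj hij heq
    refine h.dc i j k l hi hj hij (hinj ?_)
    rw [map_mul, map_mul, map_zpow, map_zpow, map_zpow, map_zpow]
    exact heq

end hom

lemma rel_mem {B : ℕ} {ee : ℕ → ℕ} {i m : ℕ} (h : i < m) : rel B ee xa xb i ∈ KK B ee m :=
  Subgroup.subset_normalClosure ⟨i, h, rfl⟩

lemma KK_le {B : ℕ} {ee : ℕ → ℕ} (m : ℕ) : KK B ee m ≤ KK B ee (m + 1) :=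
  Subgroup.normalClosure_mono fun _ ⟨i, hi, h⟩ => ⟨i, hi.trans (Nat.lt_succ_self m), h⟩

lemma KK_zero {B : ℕ} {ee : ℕ → ℕ} {x : F2} (hx : x ∈ KK B ee 0) : x = 1 := by
  have h : KK B ee 0 ≤ ⊥ := by
    refine Subgroup.normalClosure_le_normal ?_
    rintro x ⟨i, hi, -⟩
    exact absurd hi (Nat.not_lt_zero i)
  exact Subgroup.mem_bot.1 (h hx)

lemma KK_map (B : ℕ) (ee : ℕ → ℕ) (m : ℕ) :
    (KK B ee (m + 1)).map (QuotientGroup.mk' (KK B ee m)) =
      Subgroup.normalClosure {rel B ee (xa : F2 ⧸ KK B ee m) (xb : F2 ⧸ KK B ee m) m} := by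
  have h0 := Subgroup.map_normalClosure {x | ∃ i, i < m + 1 ∧ x = rel B ee xa xb i}
    (QuotientGroup.mk' (KK B ee m)) (QuotientGroup.mk'_surjective _)
  have h1 : (KK B ee (m + 1)).map (QuotientGroup.mk' (KK B ee m)) = _ := h0
  rw [h1]
  apply le_antisymm
  · refine Subgroup.normalClosure_le_normal ?_
    rintro _ ⟨_, ⟨i, hi, rfl⟩, rfl⟩
    rcases Nat.lt_succ_iff_lt_or_eq.1 hi with hi | rfl
    · have h2 : QuotientGroup.mk' (KK B ee m) (rel B ee xa xb i) = 1 :=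
        (QuotientGroup.eq_one_iff _).2 (rel_mem hi)
      change QuotientGroup.mk' (KK B ee m) (rel B ee xa xb i) ∈ _
      rw [h2]
      exact one_mem _
    · refine Subgroup.subset_normalClosure ?_
      change QuotientGroup.mk' (KK B ee i) (rel B ee xa xb i) = _
      exact map_rel _ B ee xa xb i
  · refine Subgroup.normalClosure_mono ?_
    rintro _ rfl
    exact ⟨rel B ee xa xb m, ⟨m, Nat.lt_succ_self m, rfl⟩, map_rel _ B ee xa xb m⟩

lemma ncl_conj {G : Type} [Group G] (w x : G) :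
    Subgroup.normalClosure {w * x * w⁻¹} = Subgroup.normalClosure {x} := by
  apply le_antisymm
  · refine Subgroup.normalClosure_le_normal ?_
    rintro _ rfl
    exact Subgroup.normalClosure_normal.conj_mem _
      (Subgroup.subset_normalClosure (Set.mem_singleton _)) _
  · refine Subgroup.normalClosure_le_normal (Set.singleton_subset_iff.2 ?_)
    have h := Subgroup.normalClosure_normal.conj_mem _
      (Subgroup.subset_normalClosure (Set.mem_singleton (w * x * w⁻¹))) w⁻¹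
    have e : w⁻¹ * (w * x * w⁻¹) * w⁻¹⁻¹ = x := by group
    rwa [e] at h

lemma ee_pos {B : ℕ} {ee : ℕ → ℕ} (hG : Gro B ee) (m : ℕ) : 1 ≤ ee m := by
  have hB : 1 ≤ B := le_trans (by norm_num) hG.b
  have hB6 : 1 ≤ B ^ 6 := Nat.one_le_pow _ _ hB
  induction m with
  | zero => exact le_trans (by nlinarith) hG.z
  | succ m ih =>
    refine le_trans ?_ (hG.s m)
    have h1 : 1 ≤ (m + 2) ^ 2 := Nat.one_le_pow _ _ (by omega)
    have h2 : 1 ≤ 10 ^ 20 * B ^ 6 := by nlinarith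
    exact Nat.one_le_iff_ne_zero.2 (by positivity)

/-- the inequality for the constants -/
lemma const_ineq {B : ℕ} {ee : ℕ → ℕ} (hG : Gro B ee) (m : ℕ) :
    (10 : ℝ) ^ 8 * B * (Dlm B ee m + 10 * B ^ 2 * (m + 2) ^ 2) ≤ ee m := by
  have hB : (10 : ℝ) ^ 14 ≤ B := by exact_mod_cast hG.b
  have hB1 : (1 : ℝ) ≤ B := le_trans (by norm_num) hB
  rcases m with _ | m
  · have h0 : (10 : ℝ) ^ 20 * B ^ 6 ≤ ee 0 := by exact_mod_cast hG.z
    refine le_trans ?_ h0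
    change (10 : ℝ) ^ 8 * B * (1 + 10 * B ^ 2 * (((0 : ℕ) : ℝ) + 2) ^ 2) ≤ _
    rw [Nat.cast_zero, zero_add]
    have h2 : (1 : ℝ) ≤ B ^ 2 := one_le_pow₀ hB1
    have h3 : (B : ℝ) ^ 3 ≤ B ^ 6 := pow_le_pow_right₀ hB1 (by norm_num)
    have h4 : (B : ℝ) ≤ B ^ 3 := by nlinarith
    nlinarith
  · have h0 : (10 : ℝ) ^ 20 * B ^ 6 * (m + 2) ^ 2 * ee m ≤ ee (m + 1) := by exact_mod_cast hG.s m
    refine le_trans ?_ h0
    change (10 : ℝ) ^ 8 * B * (10 ^ 5 * B ^ 2 * ee m + 10 * B ^ 2 * (((m + 1 : ℕ) : ℝ) + 2) ^ 2) ≤ _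
    have he : (1 : ℝ) ≤ ee m := by exact_mod_cast ee_pos hG m
    have hm : (0 : ℝ) ≤ m := Nat.cast_nonneg m
    have h1 : (((m + 1 : ℕ) : ℝ) + 2) ^ 2 ≤ 4 * ((m : ℝ) + 2) ^ 2 := by
      push_cast
      nlinarith
    have h2 : (1 : ℝ) ≤ ((m : ℝ) + 2) ^ 2 := one_le_pow₀ (by linarith)
    have h3 : (B : ℝ) ^ 3 ≤ B ^ 6 := pow_le_pow_right₀ hB1 (by norm_num)
    have h3' : (0 : ℝ) < B ^ 3 := by positivity
    have h5 : (ee m : ℝ) ≤ (m + 2) ^ 2 * ee m := le_mul_of_one_le_left (by linarith) h2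
    have h6 : ((m : ℝ) + 2) ^ 2 ≤ (m + 2) ^ 2 * ee m := le_mul_of_one_le_right (by linarith) he
    have h7 : 0 ≤ ((m : ℝ) + 2) ^ 2 * ee m := by positivity
    calc (10 : ℝ) ^ 8 * B * (10 ^ 5 * B ^ 2 * ee m + 10 * B ^ 2 * (((m + 1 : ℕ) : ℝ) + 2) ^ 2) =
        (B : ℝ) ^ 3 * (10 ^ 13 * (ee m : ℝ) + 10 ^ 9 * (((m + 1 : ℕ) : ℝ) + 2) ^ 2) := by ring
      _ ≤ (B : ℝ) ^ 3 * (10 ^ 20 * (((m : ℝ) + 2) ^ 2 * (ee m : ℝ))) := by
        refine mul_le_mul_of_nonneg_left ?_ h3'.le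
        linarith
      _ ≤ (B : ℝ) ^ 6 * (10 ^ 20 * (((m : ℝ) + 2) ^ 2 * (ee m : ℝ))) :=
        mul_le_mul_of_nonneg_right h3 (by positivity)
      _ = 10 ^ 20 * (B : ℝ) ^ 6 * ((m : ℝ) + 2) ^ 2 * (ee m : ℝ) := by ring

/-- one step -/
lemma step_data (hstep : S_step) (hform : S_form) {B : ℕ} {ee : ℕ → ℕ} (hG : Gro B ee) (m : ℕ)
    (V : WNorm (F2 ⧸ KK B ee m))
    (hV : Good V (xa : F2 ⧸ KK B ee m) (xb : F2 ⧸ KK B ee m) (dlm B ee m) (Dlm B ee m))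
    (N : Subgroup (F2 ⧸ KK B ee m)) [N.Normal]
    (hN : N = (KK B ee (m + 1)).map (QuotientGroup.mk' (KK B ee m))) :
    (∀ n ∈ N, n ≠ 1 → (B : ℝ) ^ 2 * ee m / 8 ≤ V.ℓ n) ∧
    (∀ i j k : ℤ, Sd B (xb : F2 ⧸ KK B ee m) ((xa : F2 ⧸ KK B ee m) ^ i)
      ((xa : F2 ⧸ KK B ee m) ^ j) ((xa : F2 ⧸ KK B ee m) ^ k) ∈ N →
      Sd B (xb : F2 ⧸ KK B ee m) ((xa : F2 ⧸ KK B ee m) ^ i)
        ((xa : F2 ⧸ KK B ee m) ^ j) ((xa : F2 ⧸ KK B ee m) ^ k) = 1 ∨ (m % 2 = 0 ∧ k = ee m)) ∧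
    ∀ W' : WNorm ((F2 ⧸ KK B ee m) ⧸ N), Quo V N W' →
      Good W' ((xa : F2 ⧸ KK B ee m) : (F2 ⧸ KK B ee m) ⧸ N)
        ((xb : F2 ⧸ KK B ee m) : (F2 ⧸ KK B ee m) ⧸ N) (dlm B ee (m + 1)) (Dlm B ee (m + 1)) := by
  have hB1 : 1 ≤ B := le_trans (by norm_num) hG.b
  obtain ⟨κ, h, w, hκ, hκm, hrel, hh⟩ := hform B ee hB1 hV.pow hV.lb m
  have hB1' : (1 : ℝ) ≤ B := by exact_mod_cast hB1
  have hR : (2 : ℝ) ≤ 10 * B ^ 2 * (m + 2) ^ 2 := by
    have h1 : (1 : ℝ) ≤ B ^ 2 := one_le_pow₀ hB1'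
    have h2 : (1 : ℝ) ≤ (m + 2) ^ 2 := one_le_pow₀ (by
      have : (0 : ℝ) ≤ m := Nat.cast_nonneg m
      linarith)
    nlinarith [mul_le_mul h1 h2 zero_le_one (by positivity)]
  have hN' : N = Subgroup.normalClosure
      {blk ((xb : F2 ⧸ KK B ee m) ^ κ) ((xa : F2 ⧸ KK B ee m) ^ ee m) B * h} := by
    rw [hN, KK_map, hrel, ncl_conj]
  obtain ⟨h1, h2, h3⟩ := hstep hV B (ee m) κ (10 * B ^ 2 * (m + 2) ^ 2) h hG.b hκ hR hh
    (const_ineq hG m) N hN'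
  refine ⟨h1, fun i j k hijk => ?_, h3⟩
  rcases h2 i j k hijk with h4 | ⟨h4, h5⟩
  · exact Or.inl h4
  · exact Or.inr ⟨hκm h4, h5⟩

lemma b3_not {G : Type} [Group G] {W : WNorm G} {a b : G} {δ D : ℝ} (h : Good W a b δ D) :
    b ^ 3 ∉ Subgroup.zpowers a := by
  rintro ⟨k, hk⟩
  refine h.dc 3 0 k 0 (by norm_num) (by norm_num) (by norm_num) ?_
  rw [zpow_zero, zpow_zero, mul_one, mul_one]
  have e : b ^ (3 : ℤ) = b ^ 3 := zpow_natCast b 3
  rw [e]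
  exact hk.symm

/-- squares -/
lemma square_case (hmal : S_malalg) {G : Type} [Group G] {W : WNorm G} {a b : G} {δ D : ℝ}
    (h : Good W a b δ D) (B : ℕ) (i j i' j' k : ℤ) (h1 : Sd B b (a ^ i) (a ^ j) (a ^ k) = 1)
    (h2 : Sd B b (a ^ i') (a ^ j') (a ^ k) = 1) : i = i' ∧ j = j' := by
  have h3 : a ^ i * b ^ 3 * a ^ j = a ^ i' * b ^ 3 * a ^ j' := by
    unfold Sd at h1 h2
    have h4 := h1.trans h2.symm
    exact mul_right_cancel (mul_right_cancel h4)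
  have hb3 := b3_not h
  have h5 : (b ^ 3)⁻¹ * a ^ (i - i') * b ^ 3 = a ^ (j' - j) := by
    have e : a ^ (i - i') = (a ^ i')⁻¹ * a ^ i := by
      rw [← zpow_neg, ← zpow_add]
      congr 1
      ring
    have e2 : a ^ (j' - j) = a ^ j' * (a ^ j)⁻¹ := zpow_sub a j' j
    rw [e, e2]
    have h6 : (a ^ i')⁻¹ * (a ^ i * b ^ 3) = b ^ 3 * a ^ j' * (a ^ j)⁻¹ := by
      rw [inv_mul_eq_iff_eq_mul, ← mul_assoc, ← mul_assoc, ← h3, mul_inv_cancel_right]
    calc (b ^ 3)⁻¹ * ((a ^ i')⁻¹ * a ^ i) * b ^ 3 = (b ^ 3)⁻¹ * ((a ^ i')⁻¹ * (a ^ i * b ^ 3)) := by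
          simp only [mul_assoc]
      _ = a ^ j' * (a ^ j)⁻¹ := by rw [h6]; simp only [mul_assoc, inv_mul_cancel_left]
  have hi : i = i' := by
    by_contra hne
    refine hmal h (b ^ 3) hb3 (i - i') (sub_ne_zero.2 hne) ?_
    rw [h5]
    exact ⟨j' - j, rfl⟩
  refine ⟨hi, ?_⟩
  rw [hi, sub_self, zpow_zero, mul_one, inv_mul_cancel] at h5
  have h6 := h.pow (j' - j)
  rw [← h5, W.one'] at h6
  have h7 : |j' - j| = 0 := by rw [← h6]; rfl
  have h8 := abs_eq_zero.1 h7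
  linarith

theorem iter : ToolG → S_step → S_form → S_tr → S_iter := by
  intro hT hstep hform htr B ee hG W hW hSd
  have main : ∀ (m : ℕ) (V : WNorm (F2 ⧸ KK B ee m)), Quo W (KK B ee m) V →
      Good V (xa : F2 ⧸ KK B ee m) (xb : F2 ⧸ KK B ee m) (dlm B ee m) (Dlm B ee m) ∧
      (∀ i j k : ℤ, Sd B xb (xa ^ i) (xa ^ j) (xa ^ k) ∈ KK B ee m →
        ∃ t : ℕ, i = t ∧ j = (t : ℤ) ^ 2) := by
    intro m
    induction m with
    | zero =>
      intro V hV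
      refine ⟨?_, fun i j k h => absurd (KK_zero h) (hSd B i j k)⟩
      have hl : ∀ g, V.ℓ (QuotientGroup.mk' (KK B ee 0) g) = W.ℓ g := by
        intro g
        obtain ⟨n, hn, h⟩ := hV.ex g
        rw [KK_zero hn, mul_one] at h
        exact h.symm
      exact good_tr (QuotientGroup.mk' (KK B ee 0)) (QuotientGroup.mk'_surjective _) hl hW
    | succ m ih =>
      intro V' hV'
      obtain ⟨V, hV1, hV2⟩ := quot_norm W (KK B ee m)
      have hV : Quo W (KK B ee m) V := ⟨hV1, hV2⟩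
      obtain ⟨hgood, hsq⟩ := ih V hV
      have hnorm : ((KK B ee (m + 1)).map (QuotientGroup.mk' (KK B ee m))).Normal :=
        Subgroup.Normal.map inferInstance _ (QuotientGroup.mk'_surjective _)
      obtain ⟨h1, h2, h3⟩ := step_data hstep hform hG m V hgood _ rfl
      obtain ⟨W'', hQ, htr'⟩ := htr W xa xb (KK B ee m) (KK B ee (m + 1)) (KK_le m) V V' hV hV'
      have hgood' := htr' _ _ (h3 W'' hQ)
      refine ⟨hgood', fun i j k h => ?_⟩
      have e : ∀ i j k : ℤ, QuotientGroup.mk' (KK B ee m) (Sd B xb (xa ^ i) (xa ^ j) (xa ^ k)) =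
          Sd B (xb : F2 ⧸ KK B ee m) ((xa : F2 ⧸ KK B ee m) ^ i)
            ((xa : F2 ⧸ KK B ee m) ^ j) ((xa : F2 ⧸ KK B ee m) ^ k) := fun i j k => by
        rw [map_Sd, map_zpow, map_zpow, map_zpow]
        rfl
      have e' : ∀ i j k : ℤ, QuotientGroup.mk' (KK B ee (m + 1))
          (Sd B xb (xa ^ i) (xa ^ j) (xa ^ k)) =
          Sd B (xb : F2 ⧸ KK B ee (m + 1)) ((xa : F2 ⧸ KK B ee (m + 1)) ^ i)
            ((xa : F2 ⧸ KK B ee (m + 1)) ^ j) ((xa : F2 ⧸ KK B ee (m + 1)) ^ k) := fun i j k => by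
        rw [map_Sd, map_zpow, map_zpow, map_zpow]
        rfl
      have h4 := h2 i j k (by rw [← e]; exact Subgroup.mem_map_of_mem _ h)
      rcases h4 with h4 | ⟨h4, h5⟩
      · refine hsq i j k ?_
        rw [← e] at h4
        exact (QuotientGroup.eq_one_iff _).1 h4
      · have h6 : rel B ee xa xb m ∈ KK B ee (m + 1) := rel_mem (Nat.lt_succ_self m)
        have h7 : rel B ee xa xb m = Sd B xb (xa ^ ((m / 2 : ℕ) : ℤ))
            (xa ^ (((m / 2 : ℕ) : ℤ) ^ 2)) (xa ^ k) := by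
          unfold rel
          rw [if_pos h4, h5, zpow_natCast, zpow_natCast, ← zpow_natCast xa ((m / 2) ^ 2)]
          push_cast
          rfl
        rw [h7] at h6
        have h8 := square_case hT.malalg hgood' B i j ((m / 2 : ℕ) : ℤ) (((m / 2 : ℕ) : ℤ) ^ 2) k
          (by rw [← e']; exact (QuotientGroup.eq_one_iff _).2 h)
          (by rw [← e']; exact (QuotientGroup.eq_one_iff _).2 h6)
        exact ⟨m / 2, h8.1, h8.2⟩
  intro m V hV
  obtain ⟨hgood, hsq⟩ := main m V hV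
  refine ⟨hgood, hsq, fun n hn hn' => ?_⟩
  have hnorm : ((KK B ee (m + 1)).map (QuotientGroup.mk' (KK B ee m))).Normal :=
    Subgroup.Normal.map inferInstance _ (QuotientGroup.mk'_surjective _)
  obtain ⟨h1, -, -⟩ := step_data hstep hform hG m V hgood _ rfl
  refine h1 _ (Subgroup.mem_map_of_mem (QuotientGroup.mk' (KK B ee m)) hn) ?_
  intro h
  exact hn' ((QuotientGroup.eq_one_iff _).1 h)

end Pool.Agent.H597.QF
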